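import Pool.Agent.P.MP_bf60a1_an.TS.Final

/-! Right angles with the vertex and one end in a set of dimension above `n / 2` and the other end
in a second set of complementary dimension. -/

namespace Pool.Agent.Results.MP_bf60a1_an.TwoSets

theorem result (n : ℕ) (hn : 2 ≤ n) (E F : Set (EuclideanSpace ℝ (Fin n)))
    (hE : MeasureTheory.AnalyticSet E) (hF : MeasureTheory.AnalyticSet F)
    (h1 : (n : ENNReal) / 2 < dimH E) (h2 : (n : ENNReal) < dimH E + dimH F) :
    ∃ x ∈ F, ∃ y ∈ E, ∃ z ∈ E, x ≠ y ∧ y ≠ z ∧ x ≠ z ∧ inner ℝ (x - y) (z - y) = 0 :=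
  Pool.Agent.P.MP_bf60a1_an.TS.final hn hE hF h1 h2

end Pool.Agent.Results.MP_bf60a1_an.TwoSets
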